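import Pool.Agent.H17.RX.Stm

set_option autoImplicit false
open Filter Topology

namespace Pool.Agent.H40.RX
open Pool.Agent.H17.RX

theorem t_FORC : S_FORC := by
  classical
  intro P le hrefl htrans hne hsig t D hcard hdense
  obtain ⟨r, wo, hr⟩ := Cardinal.exists_ord_eq t
  have := wo
  have wf : WellFounded r := IsWellFounded.wf
  have hcount : ∀ i : t, Countable {j // r j i} := by
    intro i
    have h1 : Cardinal.mk {j // r j i} < Cardinal.mk t := by
      have h2 := Ordinal.card_typein (r := r) i
      have h3 : Ordinal.typein r i < Ordinal.type r := Ordinal.typein_lt_type r i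
      rw [← hr] at h3
      have h4 := Cardinal.lt_ord.mp h3
      rw [h2] at h4
      exact h4
    have h5 : Cardinal.mk {j // r j i} < Cardinal.aleph 1 := h1.trans_le hcard
    have h6 : Cardinal.aleph 1 = Order.succ Cardinal.aleph0 := by
      rw [← Cardinal.aleph_zero, ← Cardinal.aleph_succ, ← Ordinal.succ_zero]
    rw [h6, Order.lt_succ_iff] at h5
    exact Cardinal.mk_le_aleph0_iff.mp h5
  obtain ⟨p0⟩ := hne
  let F : (i : t) → ((j : t) → r j i → P) → P := fun i f =>
    if h : ∃ q, D i q ∧ ∀ j (hj : r j i), le q (f j hj) then h.choose else p0
  let g : t → P := wf.fix F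
  have hg : ∀ i, g i = F i (fun j _ => g j) := fun i => wf.fix_eq F i
  have key : ∀ i, D i (g i) ∧ ∀ j, r j i → le (g i) (g j) := by
    intro i
    induction i using wf.induction with
    | _ i ih =>
      have hex : ∃ q, D i q ∧ ∀ j (_ : r j i), le q (g j) := by
        by_cases hemp : Nonempty {j // r j i}
        · have := hcount i
          obtain ⟨e, he⟩ := exists_surjective_nat {j // r j i}
          let m : ℕ → {j // r j i} := fun n => Nat.rec (e 0)
            (fun n a => if r a.1 (e (n + 1)).1 then e (n + 1) else a) n
          have hm0 : m 0 = e 0 := rfl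
          have hms : ∀ n, m (n + 1) = if r (m n).1 (e (n + 1)).1 then e (n + 1) else m n :=
            fun n => rfl
          have hdec : ∀ n, le (g (m (n + 1)).1) (g (m n).1) := by
            intro n
            rw [hms]
            split_ifs with h
            · exact (ih (e (n + 1)).1 (e (n + 1)).2).2 _ h
            · exact hrefl _
          have hle : ∀ n, le (g (m n).1) (g (e n).1) := by
            intro n
            cases n with
            | zero => exact hrefl _
            | succ n =>
              rw [hms]
              split_ifs with h
              · exact hrefl _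
              · rcases trichotomous_of r (m n).1 (e (n + 1)).1 with h1 | h1 | h1
                · exact absurd h1 h
                · rw [h1]; exact hrefl _
                · exact (ih (m n).1 (m n).2).2 _ h1
          obtain ⟨q, hq⟩ := hsig (fun n => g (m n).1) hdec
          obtain ⟨q', hq', hD⟩ := hdense i q
          refine ⟨q', hD, ?_⟩
          intro j hj
          obtain ⟨n, hn⟩ := he ⟨j, hj⟩
          have h1 := hle n
          rw [hn] at h1
          exact htrans _ _ _ hq' (htrans _ _ _ (hq n) h1)
        · obtain ⟨q, _, hD⟩ := hdense i p0
          refine ⟨q, hD, ?_⟩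
          intro j hj
          exact absurd ⟨⟨j, hj⟩⟩ hemp
      have hFi : g i = hex.choose := by
        rw [hg]
        exact dif_pos hex
      rw [hFi]
      exact hex.choose_spec
  refine ⟨g, fun i => (key i).1, ?_⟩
  intro i j
  rcases trichotomous_of r i j with h | h | h
  · exact Or.inr ((key j).2 i h)
  · rw [h]; exact Or.inl (hrefl _)
  · exact Or.inl ((key i).2 j h)

end Pool.Agent.H40.RX
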