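import Pool.Agent.H17.RX.Stm

set_option autoImplicit false
open Filter Topology

namespace Pool.Agent.H40.RX
open Pool.Agent.H17.RX

theorem t_THIN : S_THIN := by
  classical
  intro A hA μ hμ0 hμ1 L ε hε
  have hne : (atTop ⊓ 𝓟 A : Filter ℕ).NeBot := by
    rw [← Filter.frequently_mem_iff_neBot]
    exact Nat.frequently_atTop_iff_infinite.mpr hA
  set V : Ultrafilter ℕ := Ultrafilter.of (atTop ⊓ 𝓟 A) with hV
  have hVle : (V : Filter ℕ) ≤ atTop ⊓ 𝓟 A := Ultrafilter.of_le _
  have hVtop : (V : Filter ℕ) ≤ atTop := hVle.trans inf_le_left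
  have hVA : ∀ᶠ k in (V : Filter ℕ), k ∈ A := hVle.trans inf_le_right (mem_principal_self A)
  have hb : ∀ l, ∀ᶠ k in (V : Filter ℕ), μ k l ∈ Set.Icc (0:ℝ) 1 := by
    intro l
    filter_upwards [hVA, hVtop (eventually_gt_atTop l)] with k hk hl
    refine ⟨hμ0 k l, ?_⟩
    refine le_trans ?_ (hμ1 k hk)
    exact Finset.single_le_sum (f := fun l => μ k l) (fun i _ => hμ0 k i) (Finset.mem_range.mpr hl)
  have hlim : ∀ l, ∃ x ∈ Set.Icc (0:ℝ) 1, Tendsto (fun k => μ k l) V (𝓝 x) := by
    intro l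
    have := (isCompact_Icc (a := (0:ℝ)) (b := 1)).ultrafilter_le_nhds (V.map (fun k => μ k l)) (by
      rw [le_principal_iff]; exact hb l)
    obtain ⟨x, hx, hx2⟩ := this
    exact ⟨x, hx, hx2⟩
  choose α hα hαlim using hlim
  have hsum : ∀ n, ∑ l ∈ Finset.range n, α l ≤ 1 := by
    intro n
    have h1 : Tendsto (fun k => ∑ l ∈ Finset.range n, μ k l) V (𝓝 (∑ l ∈ Finset.range n, α l)) :=
      tendsto_finsetSum _ (fun l _ => hαlim l)
    refine le_of_tendsto h1 ?_
    filter_upwards [hVA, hVtop (eventually_ge_atTop n)] with k hk hn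
    refine le_trans ?_ (hμ1 k hk)
    exact Finset.sum_le_sum_of_subset_of_nonneg (Finset.range_mono hn) (fun i _ _ => hμ0 k i)
  have hα0 : Tendsto α atTop (𝓝 0) := by
    have : Summable α := summable_of_sum_range_le (fun l => (hα l).1) hsum
    exact this.tendsto_atTop_zero
  obtain ⟨f, hf1, hf2⟩ := exists_seq_of_forall_finset_exists
    (fun x : ℕ × ℕ => x.1 ∈ A ∧ α x.1 < ε / 2 ^ (x.2 + 1))
    (fun x y : ℕ × ℕ => x.1 < y.1 ∧ x.2 < y.2 ∧ L x.1 < y.1 ∧ μ y.1 x.1 < ε / 2 ^ (x.2 + 1)) (by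
      intro s hs
      set n := s.sup Prod.snd + 1 with hn
      have e1 : ∀ᶠ k in (V : Filter ℕ), ∀ x ∈ s,
          x.1 < k ∧ L x.1 < k ∧ μ k x.1 < ε / 2 ^ (x.2 + 1) := by
        rw [Filter.eventually_all_finset]
        intro x hx
        have := (hαlim x.1).eventually_lt_const (hs x hx).2
        filter_upwards [this, hVtop (eventually_gt_atTop x.1),
          hVtop (eventually_gt_atTop (L x.1))] with k h1 h2 h3
        exact ⟨h2, h3, h1⟩
      have e2 : ∀ᶠ k in (V : Filter ℕ), α k < ε / 2 ^ (n + 1) :=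
        hVtop (hα0.eventually_lt_const (by positivity))
      obtain ⟨k, hk1, hk2, hk3⟩ := (e1.and (e2.and hVA)).exists
      refine ⟨(k, n), ⟨hk3, hk2⟩, ?_⟩
      intro x hx
      refine ⟨(hk1 x hx).1, ?_, (hk1 x hx).2.1, (hk1 x hx).2.2⟩
      exact Nat.lt_succ_of_le (Finset.le_sup (f := Prod.snd) hx))
  refine ⟨fun j => (f j).1, ?_, fun j => (hf1 j).1, ?_, ?_⟩
  · exact strictMono_nat_of_lt_succ (fun j => (hf2 j (j+1) (Nat.lt_succ_self j)).1)
  · intro j; exact (hf2 j (j+1) (Nat.lt_succ_self j)).2.2.1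
  · intro j
    have hidx : ∀ i, i ≤ (f i).2 := by
      intro i
      have : StrictMono (fun i => (f i).2) :=
        strictMono_nat_of_lt_succ (fun j => (hf2 j (j+1) (Nat.lt_succ_self j)).2.1)
      exact this.le_apply
    calc ∑ i ∈ Finset.range j, μ (f j).1 (f i).1 ≤ ∑ i ∈ Finset.range j, ε / 2 ^ (i + 1) := by
          apply Finset.sum_le_sum
          intro i hi
          have h1 := (hf2 i j (Finset.mem_range.mp hi)).2.2.2
          refine h1.le.trans ?_
          apply div_le_div_of_nonneg_left hε.le (by positivity)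
          exact pow_le_pow_right₀ (by norm_num) (by have := hidx i; omega)
      _ = (ε / 2) * ∑ i ∈ Finset.range j, (1 / (2:ℝ)) ^ i := by
          rw [Finset.mul_sum]
          apply Finset.sum_congr rfl
          intro i _
          rw [one_div, inv_pow, pow_succ]
          field_simp
      _ ≤ (ε / 2) * 2 := mul_le_mul_of_nonneg_left (sum_geometric_two_le j) (by positivity)
      _ = ε := by ring

end Pool.Agent.H40.RX
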